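import Pool.Agent.Q262.RL.Key5
import Pool.Agent.Y399.MG.H

/-!
# Eigenvalues of integral matrices over fields with a large subfield
-/

set_option autoImplicit false

open Polynomial Module NumberField IntermediateField

namespace Pool.Agent.U189.MI

open Pool.Agent.H388SL Pool.Agent.H225R3.Marg
open Pool.Agent.Q262.RL

/-- **The transfer principle for extensions of the field of definition.** -/
theorem gap_ext (k K : Type) [Field k] [NumberField k] [Field K] [NumberField K] [Algebra k K]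
    (n s r : ℕ) (S : Finset (k →+* ℂ)) (A : Matrix (Fin n) (Fin n) (𝓞 k)) (hs : S.card ≤ s)
    (hr : finrank k K ≤ r) (μ : ℝ)
    (hμ : ∀ (L : Type) [Field L] [NumberField L] [Algebra K L] (M : IntermediateField ℚ L)
      (β : 𝓞 M), finrank K L ≤ n → finrank M L ≤ s * r * n → β ≠ 0 →
      (∀ m : ℕ, 0 < m → β ^ m ≠ 1) → (∀ i : ℕ, 0 < i → ℚ⟮(β : M) ^ i⟯ = ⊤) →
      μ ≤ Real.log ((minpoly ℤ (β : M)).map (Int.castRingHom ℂ)).mahlerMeasure)
    (hA : IsUnit A)
    (hout : ∀ σ : k →+* ℂ, σ ∉ S → ∀ l : ℂ, ((emb σ).mapMatrix A).charpoly.IsRoot l → ‖l‖ ≤ 1)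
    (hnil : ∀ N : ℕ, 0 < N → ¬ IsNilpotent (A ^ N - 1)) :
    ∃ σ ∈ S, ∃ l : ℂ, ((emb σ).mapMatrix A).charpoly.IsRoot l ∧ 1 < ‖l‖ ∧
      μ ≤ (s * r * n : ℕ) * Real.log ‖l‖ := by
  classical
  set ι : 𝓞 k →+* 𝓞 K := RingOfIntegers.mapRingHom (algebraMap k K) with hι
  have hιinj : Function.Injective ι := by
    intro x y hxy
    have h1 : algebraMap k K (x : k) = algebraMap k K (y : k) :=
      congrArg (fun z : 𝓞 K => (z : K)) hxy
    exact RingOfIntegers.coe_injective ((algebraMap k K).injective h1)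
  set S' : Finset (K →+* ℂ) := Finset.univ.filter fun τ : K →+* ℂ => τ.comp (algebraMap k K) ∈ S
    with hS'
  have hembA : ∀ τ : K →+* ℂ, (emb τ).mapMatrix (ι.mapMatrix A) =
      (emb (τ.comp (algebraMap k K))).mapMatrix A := by
    intro τ
    ext i j
    rfl
  have hcard := card_over (L := K) S
  obtain ⟨τ, hτ, l, hl, hl1, hle⟩ := Pool.Agent.Y399.MG.gap_transfer K n (s * r) S'
    (ι.mapMatrix A) (by
      rw [hS', hcard]
      exact Nat.mul_le_mul hs hr) μ hμ (hA.map ι.mapMatrix) (by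
      intro τ hτ l hl
      rw [hembA] at hl
      refine hout _ (fun hmem => hτ ?_) l hl
      rw [hS', Finset.mem_filter]
      exact ⟨Finset.mem_univ _, hmem⟩) (by
      intro N hN hnl
      refine hnil N hN ?_
      rw [← map_pow, ← map_one ι.mapMatrix, ← map_sub] at hnl
      refine (IsNilpotent.map_iff ?_).mp hnl
      intro U V hUV
      ext i j
      have h1 := congrFun (congrFun hUV i) j
      have h2 := hιinj h1
      exact congrArg _ h2)
  rw [hS', Finset.mem_filter] at hτ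
  rw [hembA] at hl
  exact ⟨_, hτ.2, l, hl, hl1, hle⟩

/-- The condition on an extension of relative degree `D` of `F`. -/
def Large (p e B C κ : ℕ) (F : Type) [Field F] [NumberField F] (D : ℕ) : Prop :=
  (FrobMass p (p ^ e) B F ∧ D ≤ C * finrank ℚ F ^ κ) ∨
  (FrobMass p (p ^ e) 1 F ∧ RamComp p B F ∧
    Real.log (2 * (finrank ℚ F * D)) * Real.exp (√(3 * (e * Real.log p) * Real.log D)) ≤
      C * finrank ℚ F)

/-- the real estimate -/
lemma real_large {c : ℝ} (hc : 0 ≤ c) (n N D C : ℕ) (hn : 0 < n) (hN : 0 < N) (hD : 0 < D)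
    (h : Real.log (2 * (N * D)) * Real.exp (√(c * Real.log D)) ≤ C * N) :
    Real.log (2 * (N * (n * D : ℕ))) * Real.exp (√(c * Real.log (n * D : ℕ))) ≤
      ((1 + Real.log n / Real.log 2) * Real.exp (√(c * Real.log n)) * C) * N := by
  have hn' : (1 : ℝ) ≤ n := by exact_mod_cast hn
  have hN' : (1 : ℝ) ≤ N := by exact_mod_cast hN
  have hD' : (1 : ℝ) ≤ D := by exact_mod_cast hD
  have hln : 0 ≤ Real.log (n : ℝ) := Real.log_nonneg hn'
  have hlD : 0 ≤ Real.log (D : ℝ) := Real.log_nonneg hD'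
  have hl2 : 0 < Real.log 2 := Real.log_pos (by norm_num)
  have hND : (1 : ℝ) ≤ N * D := one_le_mul_of_one_le_of_one_le hN' hD'
  have hX : Real.log 2 ≤ Real.log (2 * (N * D)) := Real.log_le_log (by norm_num) (by linarith)
  have h1 : Real.log (2 * (N * (n * D : ℕ))) ≤
      (1 + Real.log n / Real.log 2) * Real.log (2 * (N * D)) := by
    have e1 : (2 * ((N : ℝ) * (n * D : ℕ))) = n * (2 * (N * D)) := by push_cast; ring
    rw [e1, Real.log_mul (by linarith) (by linarith), add_mul, one_mul, add_comm]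
    have h2 : Real.log n / Real.log 2 * Real.log 2 ≤
        Real.log n / Real.log 2 * Real.log (2 * (N * D)) :=
      mul_le_mul_of_nonneg_left hX (by positivity)
    rw [div_mul_cancel₀ _ hl2.ne'] at h2
    linarith
  have h3 : √(c * Real.log (n * D : ℕ)) ≤ √(c * Real.log n) + √(c * Real.log D) := by
    have e2 : c * Real.log ((n * D : ℕ) : ℝ) = c * Real.log n + c * Real.log D := by
      push_cast
      rw [Real.log_mul (by linarith) (by linarith)]
      ring
    rw [e2, Real.sqrt_le_left (by positivity), add_sq,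
      Real.sq_sqrt (by positivity), Real.sq_sqrt (by positivity)]
    have : 0 ≤ 2 * √(c * Real.log n) * √(c * Real.log D) := by positivity
    linarith
  have h4 : 0 ≤ Real.log (2 * ((N : ℝ) * D)) := by linarith
  have h0 : 0 ≤ 1 + Real.log n / Real.log 2 := by positivity
  calc Real.log (2 * (N * (n * D : ℕ))) * Real.exp (√(c * Real.log (n * D : ℕ)))
      ≤ ((1 + Real.log n / Real.log 2) * Real.log (2 * (N * D))) *
        Real.exp (√(c * Real.log n) + √(c * Real.log D)) :=
        mul_le_mul h1 (Real.exp_le_exp.2 h3) (Real.exp_pos _).le (mul_nonneg h0 h4)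
    _ = (1 + Real.log n / Real.log 2) * Real.exp (√(c * Real.log n)) *
        (Real.log (2 * (N * D)) * Real.exp (√(c * Real.log D))) := by
        rw [Real.exp_add]; ring
    _ ≤ (1 + Real.log n / Real.log 2) * Real.exp (√(c * Real.log n)) * (C * N) :=
        mul_le_mul_of_nonneg_left h (mul_nonneg h0 (Real.exp_pos _).le)
    _ = _ := by ring

/-- **The gap for fields with a large subfield.** -/
theorem large_gap {p : ℕ} (hp : p.Prime) {e : ℕ} (he : 0 < e) (B C κ s r n : ℕ) :
    ∃ μ : ℝ, 0 < μ ∧ ∀ (k K F : Type) [Field k] [NumberField k] [Field K] [NumberField K]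
      [Algebra k K] [Field F] [NumberField F] [Algebra F K] (S : Finset (k →+* ℂ))
      (A : Matrix (Fin n) (Fin n) (𝓞 k)), S.card ≤ s → finrank k K ≤ r →
      Large p e B C κ F (finrank F K) → IsUnit A →
      (∀ σ : k →+* ℂ, σ ∉ S → ∀ l : ℂ, ((emb σ).mapMatrix A).charpoly.IsRoot l → ‖l‖ ≤ 1) →
      (∀ N : ℕ, 0 < N → ¬ IsNilpotent (A ^ N - 1)) →
      ∃ σ ∈ S, ∃ l : ℂ, ((emb σ).mapMatrix A).charpoly.IsRoot l ∧ 1 < ‖l‖ ∧
        μ ≤ (s * r * n : ℕ) * Real.log ‖l‖ := by
  obtain ⟨μ1, hμ1, h1⟩ := key4 hp he B κ (s * r * n) (n * C)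
  obtain ⟨μ2, hμ2, h2⟩ := key2 hp he B (s * r * n)
    ((1 + Real.log n / Real.log 2) * Real.exp (√(3 * (e * Real.log p) * Real.log n)) * C)
  refine ⟨min μ1 μ2, lt_min hμ1 hμ2, ?_⟩
  intro k K F _ _ _ _ _ _ _ _ S A hs hr hF hA hout hnil
  refine gap_ext k K n s r S A hs hr _ ?_ hA hout hnil
  intro L _ _ _ M β hn hM hβ0 hβr hgen
  letI : Algebra F L := ((algebraMap K L).comp (algebraMap F K)).toAlgebra
  haveI : IsScalarTower F K L := IsScalarTower.of_algebraMap_eq fun _ => rfl
  haveI : FiniteDimensional F L := Module.Finite.of_restrictScalars_finite ℚ F L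
  haveI : FiniteDimensional F K := Module.Finite.of_restrictScalars_finite ℚ F K
  haveI : FiniteDimensional K L := Module.Finite.of_restrictScalars_finite ℚ K L
  have hgen' : ∀ i : ℕ, ℚ⟮(β : M) ^ p ^ i⟯ = ⊤ := fun i => hgen _ (pow_pos hp.pos i)
  have hdeg : finrank F L ≤ n * finrank F K := by
    rw [← Module.finrank_mul_finrank F K L, mul_comm]
    exact Nat.mul_le_mul_right _ hn
  rcases hF with ⟨hF1, hF2⟩ | ⟨hF1, hF2, hF3⟩
  · refine (min_le_left _ _).trans (h1 F L M β hF1 ?_ hM hβ0 hβr hgen')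
    calc finrank F L ≤ n * finrank F K := hdeg
      _ ≤ n * (C * finrank ℚ F ^ κ) := Nat.mul_le_mul_left _ hF2
      _ = n * C * finrank ℚ F ^ κ := by ring
  · have hn0 : 0 < n := lt_of_lt_of_le finrank_pos hn
    have hp1 : (1 : ℝ) ≤ p := by exact_mod_cast hp.one_lt.le
    have hlp : 0 ≤ Real.log (p : ℝ) := Real.log_nonneg hp1
    exact (min_le_right _ _).trans (h2 F L M β (n * finrank F K) (all_of_mass hp hF1) hF2 hdeg
      (real_large (c := 3 * (e * Real.log p)) (by positivity) n (finrank ℚ F) (finrank F K) C hn0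
        finrank_pos finrank_pos hF3) hM hβ0 hβr hgen')

/-- **The explicit gap if the ramification is bounded.** -/
theorem large_ram {p : ℕ} (hp : p.Prime) {e : ℕ} (he : 0 < e) (E s r n : ℕ)
    (k K F : Type) [Field k] [NumberField k] [Field K] [NumberField K]
    [Algebra k K] [Field F] [NumberField F] [Algebra F K] (S : Finset (k →+* ℂ))
    (A : Matrix (Fin n) (Fin n) (𝓞 k)) (hs : S.card ≤ s) (hr : finrank k K ≤ r)
    (hF : FrobMass p (p ^ e) 1 F) (hE : RamLe p E F) (hA : IsUnit A)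
    (hout : ∀ σ : k →+* ℂ, σ ∉ S → ∀ l : ℂ, ((emb σ).mapMatrix A).charpoly.IsRoot l → ‖l‖ ≤ 1)
    (hnil : ∀ N : ℕ, 0 < N → ¬ IsNilpotent (A ^ N - 1)) :
    ∃ σ ∈ S, ∃ l : ℂ, ((emb σ).mapMatrix A).charpoly.IsRoot l ∧ 1 < ‖l‖ ∧
      finrank ℚ F / (rcost p e E (n * finrank F K) * (s * r * n : ℕ)) ≤
        (s * r * n : ℕ) * Real.log ‖l‖ := by
  refine gap_ext k K n s r S A hs hr _ ?_ hA hout hnil
  intro L _ _ _ M β hn hM hβ0 hβr hgen
  letI : Algebra F L := ((algebraMap K L).comp (algebraMap F K)).toAlgebra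
  haveI : IsScalarTower F K L := IsScalarTower.of_algebraMap_eq fun _ => rfl
  haveI : FiniteDimensional F L := Module.Finite.of_restrictScalars_finite ℚ F L
  haveI : FiniteDimensional F K := Module.Finite.of_restrictScalars_finite ℚ F K
  haveI : FiniteDimensional K L := Module.Finite.of_restrictScalars_finite ℚ K L
  haveI : FiniteDimensional M L := Module.Finite.of_restrictScalars_finite ℚ M L
  have hdeg : finrank F L ≤ n * finrank F K := by
    rw [← Module.finrank_mul_finrank F K L, mul_comm]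
    exact Nat.mul_le_mul_right _ hn
  have hg : ℚ⟮(β : M)⟯ = ⊤ := by
    have := hgen 1 one_pos
    rwa [pow_one] at this
  have h1 := ram_mahler (F := F) (K := L) hp he (all_of_mass hp hF) hE β hβ0 hβr hg
  set X := Real.log ((minpoly ℤ (β : M)).map (Int.castRingHom ℂ)).mahlerMeasure with hX
  have hX0 : 0 ≤ X := Real.log_nonneg
    (one_le_mahlerMeasure_of_ne_zero (minpoly.ne_zero β.isIntegral_coe))
  have hM' : (finrank M L : ℝ) ≤ (s * r * n : ℕ) := by exact_mod_cast hM
  have hMpos : (0 : ℝ) < (s * r * n : ℕ) := by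
    have : (0 : ℝ) < finrank M L := by exact_mod_cast (finrank_pos : 0 < finrank M L)
    linarith
  have h2 : (finrank ℚ F : ℝ) ≤ rcost p e E (n * finrank F K) * ((s * r * n : ℕ) * X) := by
    refine h1.trans ?_
    refine mul_le_mul (rcost_mono hp finrank_pos hdeg) (mul_le_mul_of_nonneg_right hM' hX0)
      (by positivity) (rcost_nonneg hp _ _ _)
  have hFpos : (0 : ℝ) < finrank ℚ F := by exact_mod_cast (finrank_pos : 0 < finrank ℚ F)
  have hc0 : 0 < rcost p e E (n * finrank F K) := by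
    rcases (rcost_nonneg hp e E (n * finrank F K)).lt_or_eq with h | h
    · exact h
    · rw [← h, zero_mul] at h2
      linarith
  rw [div_le_iff₀ (by positivity)]
  calc (finrank ℚ F : ℝ) ≤ rcost p e E (n * finrank F K) * ((s * r * n : ℕ) * X) := h2
    _ = X * (rcost p e E (n * finrank F K) * (s * r * n : ℕ)) := by ring

end Pool.Agent.U189.MI
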