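import Pool.Agent.U189.MI.Eig

/-!
# The gap for fields with a subfield of finite exponent
-/

set_option autoImplicit false

open Polynomial Module NumberField IntermediateField

namespace Pool.Agent.U189.MI

open Pool.Agent.H388SL Pool.Agent.H225R3.Marg

/-- the control of the local degrees of `F` at all primes -/
def Ctrl' (m : ℕ) (x : ℝ) (F : Type) [Field F] [NumberField F] : Prop :=
  (∃ (E : Type) (_ : Field E) (_ : CharZero E) (_ : IsGalois ℚ E), (∀ σ : E ≃ₐ[ℚ] E, σ ^ m = 1) ∧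
    Nonempty (F →+* E)) ∨
  ∀ T : Finset ℕ, (∀ p ∈ T, p.Prime ∧ ¬ Pool.Agent.U218.LD.Good F m p) → (T.card : ℝ) ≤ x

lemma Ctrl'.ctrl {C : ℝ} {m : ℕ} {x B : ℝ} {F : Type} [Field F] [NumberField F]
    (h : Ctrl' m x F) (hx : x ≤ B) : Ctrl C m B F := by
  rcases h with h | h
  · exact Or.inl h
  · exact Or.inr fun T hT => (h T fun p hp => ⟨(hT p hp).1, (hT p hp).2.2⟩).trans hx

/-- the common part -/
lemma disc_aux {C : ℝ} (_ : 7680 ≤ C) (h : ∀ m : ℕ, 0 < m →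
    ∀ (k : Type) [Field k] [NumberField k] (n s : ℕ) (S : Finset (k →+* ℂ))
    (A : Matrix (Fin n) (Fin n) (𝓞 k)), S.card ≤ s →
    ∀ (F : Type) [Field F] [NumberField F] [Algebra F k] (B : ℝ),
    C + m ^ 2 + Real.log (n * finrank F k) ≤ B → Ctrl C m B F → IsUnit A →
    (∀ σ : k →+* ℂ, σ ∉ S → ∀ l : ℂ, ((emb σ).mapMatrix A).charpoly.IsRoot l → ‖l‖ ≤ 1) →
    (∀ N : ℕ, 0 < N → ¬ IsNilpotent (A ^ N - 1)) →
    ∃ σ ∈ S, ∃ l : ℂ, ((emb σ).mapMatrix A).charpoly.IsRoot l ∧ 1 < ‖l‖ ∧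
      finrank ℚ F / (s * n : ℕ) * W C m B ≤ (s * n : ℕ) * Real.log ‖l‖)
    (n s : ℕ) (κ : ℝ) (hκ : 0 < κ) : ∃ ε : ℝ, 0 < ε ∧ ∀ m : ℕ, 0 < m →
    ∀ (k : Type) [Field k] [NumberField k] (S : Finset (k →+* ℂ))
    (A : Matrix (Fin n) (Fin n) (𝓞 k)), S.card ≤ s →
    ∀ (F : Type) [Field F] [NumberField F] [Algebra F k],
    Ctrl' m (m + Real.log (finrank F k)) F →
    κ ≤ finrank ℚ F * W C m (C + m ^ 2 + Real.log n + Real.log (finrank F k)) → IsUnit A →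
    (∀ σ : k →+* ℂ, σ ∉ S → ∀ l : ℂ, ((emb σ).mapMatrix A).charpoly.IsRoot l → ‖l‖ ≤ 1) →
    (∀ N : ℕ, 0 < N → ¬ IsNilpotent (A ^ N - 1)) →
    ∃ σ ∈ S, ∃ l : ℂ, ((emb σ).mapMatrix A).charpoly.IsRoot l ∧ ε ≤ ‖l - 1‖ := by
  obtain ⟨ε, hε, heps⟩ := Pool.Agent.Y399.MG.exists_eps ((s * n) ^ 2) κ hκ
  refine ⟨ε, hε, ?_⟩
  intro m hm k _ _ S A hs F _ _ _ hctrl hκ' hA hout hnil
  haveI : FiniteDimensional F k := Module.Finite.of_restrictScalars_finite ℚ F k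
  have hn : 0 < n := by
    rcases Nat.eq_zero_or_pos n with rfl | h
    · exact absurd (by
        have : A ^ 1 - 1 = 0 := Subsingleton.elim _ _
        rw [this]
        exact IsNilpotent.zero) (hnil 1 one_pos)
    · exact h
  have hb : 0 < finrank F k := finrank_pos
  have hn' : (0 : ℝ) < n := by exact_mod_cast hn
  have hb' : (0 : ℝ) < finrank F k := by exact_mod_cast hb
  have hm1 : (1 : ℝ) ≤ m := by exact_mod_cast hm
  have hn0 : 0 ≤ Real.log (n : ℝ) := Real.log_natCast_nonneg n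
  obtain ⟨σ, hσ, l, hl, hl1, hlow⟩ := h m hm k n s S A hs F
    (C + m ^ 2 + Real.log n + Real.log (finrank F k))
    (by rw [Real.log_mul hn'.ne' hb'.ne']; linarith)
    (hctrl.ctrl (by nlinarith)) hA hout hnil
  refine ⟨σ, hσ, l, hl, heps l ?_ hl1⟩
  have hs0 : 0 < s := lt_of_lt_of_le (Finset.card_pos.2 ⟨σ, hσ⟩) hs
  have hN : (0 : ℝ) < ((s * n : ℕ) : ℝ) := by exact_mod_cast Nat.mul_pos hs0 hn
  refine hκ'.trans ?_
  have h1 := mul_le_mul_of_nonneg_left hlow hN.le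
  calc (finrank ℚ F : ℝ) * W C m (C + m ^ 2 + Real.log n + Real.log (finrank F k)) =
      ((s * n : ℕ) : ℝ) * (finrank ℚ F / (s * n : ℕ) *
        W C m (C + m ^ 2 + Real.log n + Real.log (finrank F k))) := by field_simp
    _ ≤ _ := h1
    _ = (((s * n) ^ 2 : ℕ) : ℝ) * Real.log ‖l‖ := by push_cast; ring

/-- **The gap: polylogarithmic degrees.** -/
theorem disc_log (m n s : ℕ) (hm : 0 < m) {c : ℝ} (hc : 0 < c) : ∃ ε : ℝ, 0 < ε ∧
    ∀ (k : Type) [Field k] [NumberField k] (S : Finset (k →+* ℂ))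
    (A : Matrix (Fin n) (Fin n) (𝓞 k)), S.card ≤ s →
    ∀ (F : Type) [Field F] [NumberField F] [Algebra F k],
    Ctrl' m (m + Real.log (finrank F k)) F →
    c * Real.log (3 + finrank F k) ^ (2 * m + 1) ≤
      finrank ℚ F * Real.log (Real.log (3 + finrank F k)) ^ (m + 2) → IsUnit A →
    (∀ σ : k →+* ℂ, σ ∉ S → ∀ l : ℂ, ((emb σ).mapMatrix A).charpoly.IsRoot l → ‖l‖ ≤ 1) →
    (∀ N : ℕ, 0 < N → ¬ IsNilpotent (A ^ N - 1)) →
    ∃ σ ∈ S, ∃ l : ℂ, ((emb σ).mapMatrix A).charpoly.IsRoot l ∧ ε ≤ ‖l - 1‖ := by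
  obtain ⟨C, hC, h⟩ := eig
  obtain ⟨κ, hκ, hreal⟩ := real_log hC m n hm hc
  obtain ⟨ε, hε, h'⟩ := disc_aux hC h n s κ hκ
  refine ⟨ε, hε, ?_⟩
  intro k _ _ S A hs F _ _ _ hctrl hdeg hA hout hnil
  haveI : FiniteDimensional F k := Module.Finite.of_restrictScalars_finite ℚ F k
  exact h' m hm k S A hs F hctrl (hreal _ _ finrank_pos hdeg) hA hout hnil

/-- **The gap: powers of the degree.** -/
theorem disc_pow (n : ℕ) {δ : ℝ} (hδ : 0 < δ) : ∃ c : ℝ, 0 < c ∧ ∀ s : ℕ, ∃ ε : ℝ, 0 < ε ∧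
    ∀ m : ℕ, 0 < m → ∀ (k : Type) [Field k] [NumberField k] (S : Finset (k →+* ℂ))
    (A : Matrix (Fin n) (Fin n) (𝓞 k)), S.card ≤ s →
    ∀ (F : Type) [Field F] [NumberField F] [Algebra F k],
    Ctrl' m (m + Real.log (finrank F k)) F →
    (finrank ℚ k : ℝ) ^ δ ≤ finrank ℚ F →
    m * Real.log (Real.log (3 * finrank ℚ k)) ≤ c * Real.log (3 * finrank ℚ k) → IsUnit A →
    (∀ σ : k →+* ℂ, σ ∉ S → ∀ l : ℂ, ((emb σ).mapMatrix A).charpoly.IsRoot l → ‖l‖ ≤ 1) →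
    (∀ N : ℕ, 0 < N → ¬ IsNilpotent (A ^ N - 1)) →
    ∃ σ ∈ S, ∃ l : ℂ, ((emb σ).mapMatrix A).charpoly.IsRoot l ∧ ε ≤ ‖l - 1‖ := by
  obtain ⟨C, hC, h⟩ := eig
  obtain ⟨c, hc, κ, hκ, hreal⟩ := real_pow hC n hδ
  refine ⟨c, hc, fun s => ?_⟩
  obtain ⟨ε, hε, h'⟩ := disc_aux hC h n s κ hκ
  refine ⟨ε, hε, ?_⟩
  intro m hm k _ _ S A hs F _ _ _ hctrl hdeg hmc hA hout hnil
  haveI : FiniteDimensional F k := Module.Finite.of_restrictScalars_finite ℚ F k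
  have e : finrank ℚ F * finrank F k = finrank ℚ k := Module.finrank_mul_finrank ℚ F k
  refine h' m hm k S A hs F hctrl (hreal m _ _ hm finrank_pos finrank_pos ?_ ?_) hA hout hnil
  · rw [e]; exact hdeg
  · rw [e]; exact hmc

end Pool.Agent.U189.MI
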