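import Mathlib

/-!
# The exponent of the Galois closure of a field generated by elements of bounded degree
-/

set_option autoImplicit false

open Polynomial Module IntermediateField

namespace Pool.Agent.U189.MI

/-- an automorphism which fixes `x` up to a bounded power -/
lemma pow_fix {E : Type} [Field E] [CharZero E] (σ : E ≃ₐ[ℚ] E) (x : E) (P : ℚ[X]) (hP : P ≠ 0)
    (hx : aeval x P = 0) (d m : ℕ)
    (hd : P.natDegree ≤ d) (hm : ∀ j, 1 ≤ j → j ≤ d → j ∣ m) : (σ ^ m) x = x := by
  classical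
  have hcard : (P.aroots E).toFinset.card ≤ d :=
    (Multiset.toFinset_card_le _).trans ((card_roots' _).trans ((natDegree_map_le).trans hd))
  obtain ⟨i, hi, j, hj, hij, he⟩ := Finset.exists_ne_map_eq_of_card_lt_of_maps_to
    (s := Finset.range (d + 1)) (t := (P.aroots E).toFinset)
    (by rw [Finset.card_range]; omega) (f := fun i => (σ ^ i) x) (by
      intro i _
      rw [Finset.mem_coe, Multiset.mem_toFinset, mem_aroots]
      refine ⟨hP, ?_⟩
      have : aeval ((σ ^ i) x) P = (σ ^ i) (aeval x P) :=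
        aeval_algHom_apply (σ ^ i) x P
      rw [this, hx, map_zero])
  have key : ∀ i j : ℕ, i < j → j ≤ d → (σ ^ i) x = (σ ^ j) x → (σ ^ m) x = x := by
    intro i j hij hj he
    have h1 : (σ ^ (j - i)) x = x := by
      apply (σ ^ i).injective
      rw [← AlgEquiv.mul_apply, ← pow_add, Nat.add_sub_cancel' hij.le]
      exact he.symm
    obtain ⟨t, ht⟩ := hm (j - i) (by omega) (by omega)
    have h2 : ∀ t : ℕ, (σ ^ ((j - i) * t)) x = x := by
      intro t
      induction t with
      | zero => simp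
      | succ t ih => rw [mul_add, mul_one, pow_add, AlgEquiv.mul_apply, h1, ih]
    rw [ht, h2]
  rw [Finset.mem_range] at hi hj
  rcases lt_or_gt_of_ne hij with h | h
  · exact key i j h (by omega) he
  · exact key j i h (by omega) he.symm

lemma isAlg_inst {R : Type} [Field R] (i j : Algebra ℚ R) (h : @Algebra.IsAlgebraic ℚ R _ _ i) :
    @Algebra.IsAlgebraic ℚ R _ _ j := by
  rw [Subsingleton.elim j i]
  exact h

lemma normal_inst {R : Type} [Field R] (i j : Algebra ℚ R) (h : @Normal ℚ R _ _ i) :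
    @Normal ℚ R _ _ j := by
  rw [Subsingleton.elim j i]
  exact h

/-- a field which is generated by elements of degree at most `d` -/
theorem exponent_of_generators (d m : ℕ) (hm : ∀ j, 1 ≤ j → j ≤ d → j ∣ m)
    (F : Type) [Field F] [NumberField F]
    (h : IntermediateField.adjoin ℚ {x : F | (minpoly ℚ x).natDegree ≤ d} = ⊤) :
    ∃ (E : Type) (_ : Field E) (_ : CharZero E) (_ : IsGalois ℚ E),
      (∀ σ : E ≃ₐ[ℚ] E, σ ^ m = 1) ∧ Nonempty (F →+* E) := by
  let Ω := AlgebraicClosure ℚ
  haveI hAlg : Algebra.IsAlgebraic ℚ Ω := by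
    exact isAlg_inst _ _ (AlgebraicClosure.isAlgebraic ℚ)
  haveI : IsAlgClosure ℚ Ω := ⟨inferInstance, hAlg⟩
  haveI : Normal ℚ Ω := IsAlgClosure.normal ℚ Ω
  set S : Set Ω := {x | (minpoly ℚ x).natDegree ≤ d} with hS
  set E := IntermediateField.adjoin ℚ S with hE
  have hmem : ∀ x : Ω, (minpoly ℚ x).natDegree ≤ d → x ∈ E := fun x hx =>
    IntermediateField.subset_adjoin ℚ S hx
  have hnor' : @Normal ℚ E _ _ (IntermediateField.algebra' E) := by
    rw [IntermediateField.normal_iff_forall_map_le]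
    intro σ
    rw [hE, IntermediateField.adjoin_map, IntermediateField.adjoin_le_iff]
    rintro _ ⟨x, hx, rfl⟩
    refine hmem _ ?_
    have : minpoly ℚ (σ x) = minpoly ℚ x := minpoly.algHom_eq σ σ.injective x
    rw [this]
    exact hx
  have hnor : Normal ℚ E := by
    exact normal_inst _ _ hnor'
  haveI : IsGalois ℚ E := ⟨⟩
  refine ⟨E, inferInstance, inferInstance, inferInstance, ?_, ?_⟩
  · intro σ
    have h1 : ∀ x (hx : x ∈ IntermediateField.adjoin ℚ S), (σ ^ m) (⟨x, hx⟩ : E) = ⟨x, hx⟩ := by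
      intro x hx
      induction hx using IntermediateField.adjoin_induction with
      | mem x hx =>
        refine pow_fix σ _ (minpoly ℚ x) (minpoly.ne_zero (Algebra.IsIntegral.isIntegral x)) ?_ d m
          hx hm
        apply Subtype.val_injective
        have h2 : (aeval (⟨x, hmem x hx⟩ : E) (minpoly ℚ x) : E).1 = aeval x (minpoly ℚ x) := by
          rw [aeval_def, aeval_def]
          have h3 := hom_eval₂ (minpoly ℚ x) (algebraMap ℚ E) (E.val : E →+* Ω) ⟨x, hmem x hx⟩
          have h4 : ((E.val : E →+* Ω).comp (algebraMap ℚ E)) = algebraMap ℚ Ω :=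
            RingHom.ext_rat _ _
          rw [h4] at h3
          exact h3
        exact h2.trans (minpoly.aeval ℚ x)
      | algebraMap q =>
        have h2 : (⟨algebraMap ℚ Ω q, IntermediateField.algebraMap_mem _ q⟩ : E) = (q : E) := by
          apply Subtype.ext
          simp
        rw [h2, map_ratCast]
      | add x y hx hy h2 h3 =>
        have h4 : (⟨x + y, add_mem hx hy⟩ : E) = (⟨x, hx⟩ : E) + ⟨y, hy⟩ := rfl
        rw [h4, map_add, h2, h3]
      | inv x hx h2 =>
        have h4 : (⟨x⁻¹, inv_mem hx⟩ : E) = (⟨x, hx⟩ : E)⁻¹ := rfl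
        rw [h4, map_inv₀, h2]
      | mul x y hx hy h2 h3 =>
        have h4 : (⟨x * y, mul_mem hx hy⟩ : E) = (⟨x, hx⟩ : E) * ⟨y, hy⟩ := rfl
        rw [h4, map_mul, h2, h3]
    ext x
    rw [h1 x.1 x.2]
    rfl
  · let φ : F →ₐ[ℚ] Ω := IsAlgClosed.lift
    have h1 : φ.fieldRange ≤ E := by
      rw [AlgHom.fieldRange_eq_map, ← h, IntermediateField.adjoin_map, IntermediateField.adjoin_le_iff]
      rintro _ ⟨x, hx, rfl⟩
      refine hmem _ ?_
      have : minpoly ℚ (φ x) = minpoly ℚ x := minpoly.algHom_eq φ φ.injective x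
      rw [this]
      exact hx
    exact ⟨((IntermediateField.inclusion h1).comp φ.rangeRestrict : F →ₐ[ℚ] E)⟩

end Pool.Agent.U189.MI
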