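import Pool.Agent.U218.LD.Cor
import Pool.Agent.Y399.MG.H

/-!
# Mahler measures of the generators of a subfield of bounded index of an extension of `F`

`F` is a number field which is embedded in a Galois extension of `ℚ` of exponent `m`, or whose local
degrees at most of the small primes are at most `m`.
-/

set_option autoImplicit false

open Polynomial Module NumberField IntermediateField

namespace Pool.Agent.U189.MI

/-- the Mahler measure of the minimal polynomial of an algebraic integer, not a root of unity -/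
lemma one_lt_mahler {M : Type} [Field M] [NumberField M] (β : M) (hβ : IsIntegral ℤ β) (h0 : β ≠ 0)
    (hr : ∀ m : ℕ, 0 < m → β ^ m ≠ 1) :
    1 < ((minpoly ℤ β).map (Int.castRingHom ℂ)).mahlerMeasure := by
  have hf0 : minpoly ℤ β ≠ 0 := minpoly.ne_zero hβ
  have h1 := one_le_mahlerMeasure_of_ne_zero hf0
  refine lt_of_le_of_ne h1 fun h => ?_
  obtain ⟨σ⟩ : Nonempty (M →+* ℂ) := inferInstance
  have hz : σ β ∈ (minpoly ℤ β).aroots ℂ := by
    rw [mem_aroots]
    refine ⟨hf0, ?_⟩
    have h2 : aeval (σ β) (minpoly ℤ β) = σ (aeval β (minpoly ℤ β)) := by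
      rw [aeval_def, aeval_def, hom_eval₂]
      congr 1
      exact RingHom.ext_int _ _
    rw [h2, minpoly.aeval, map_zero]
  obtain ⟨n, hn, hp⟩ := pow_eq_one_of_mahlerMeasure_eq_one h.symm
    (fun h3 => h0 (σ.injective (by rw [h3, map_zero]))) hz
  refine hr n hn (σ.injective ?_)
  rw [map_pow, hp, map_one]

/-- the degrees -/
lemma degrees (F L M : Type) [Field F] [NumberField F] [Field L] [NumberField L] [Field M]
    [NumberField M] [Algebra F L] [Algebra M L] (β : M) (hβ : IsIntegral ℤ β) (hgen : ℚ⟮β⟯ = ⊤)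
    (N : ℕ) (hN : finrank M L ≤ N) :
    (minpoly F (algebraMap M L β)) ∣ (minpoly ℤ β).map (Int.castRingHom F) ∧
    0 < (minpoly F (algebraMap M L β)).natDegree ∧
    (minpoly F (algebraMap M L β)).natDegree ≤ finrank F L ∧
    finrank ℚ F * (minpoly F (algebraMap M L β)).natDegree ≤ (minpoly ℤ β).natDegree * N := by
  haveI : FiniteDimensional F L := Module.Finite.of_restrictScalars_finite ℚ F L
  haveI : FiniteDimensional M L := Module.Finite.of_restrictScalars_finite ℚ M L
  have hint : IsIntegral F (algebraMap M L β) := Algebra.IsIntegral.isIntegral _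
  have hd : (minpoly ℤ β).natDegree = finrank ℚ M := by
    have h1 : minpoly ℚ β = (minpoly ℤ β).map (algebraMap ℤ ℚ) :=
      minpoly.isIntegrallyClosed_eq_field_fractions' ℚ hβ
    have h2 : (minpoly ℚ β).natDegree = (minpoly ℤ β).natDegree := by
      rw [h1, natDegree_map_eq_of_injective (algebraMap ℤ ℚ).injective_int]
    rw [← h2, ← IntermediateField.adjoin.finrank (Algebra.IsIntegral.isIntegral (R := ℚ) β), hgen,
      IntermediateField.finrank_top']
  have hle : (minpoly F (algebraMap M L β)).natDegree ≤ finrank F L := minpoly.natDegree_le _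
  refine ⟨?_, minpoly.natDegree_pos hint, hle, ?_⟩
  · refine minpoly.dvd F _ ?_
    have h2 : aeval (algebraMap M L β) ((minpoly ℤ β).map (Int.castRingHom F)) =
        algebraMap M L (aeval β (minpoly ℤ β)) := by
      rw [aeval_def, eval₂_map, aeval_def, hom_eval₂]
      congr 1
      exact RingHom.ext_int _ _
    rw [h2, minpoly.aeval, map_zero]
  · rw [hd]
    have h5 : finrank ℚ M * finrank M L = finrank ℚ L := Module.finrank_mul_finrank ℚ M L
    have h6 : finrank ℚ F * finrank F L = finrank ℚ L := Module.finrank_mul_finrank ℚ F L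
    calc finrank ℚ F * (minpoly F (algebraMap M L β)).natDegree ≤ finrank ℚ F * finrank F L :=
          Nat.mul_le_mul_left _ hle
      _ = finrank ℚ M * finrank M L := by rw [h5, h6]
      _ ≤ finrank ℚ M * N := Nat.mul_le_mul_left _ hN

/-- the control of the local degrees of `F` -/
def Ctrl (C : ℝ) (m : ℕ) (B : ℝ) (F : Type) [Field F] [NumberField F] : Prop :=
  (∃ (E : Type) (_ : Field E) (_ : CharZero E) (_ : IsGalois ℚ E), (∀ σ : E ≃ₐ[ℚ] E, σ ^ m = 1) ∧
    Nonempty (F →+* E)) ∨
  ∀ T : Finset ℕ, (∀ p ∈ T, p.Prime ∧ (p : ℝ) ≤ C * m ^ 2 * B ^ 2 / Real.log B ∧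
    ¬ Pool.Agent.U218.LD.Good F m p) → (T.card : ℝ) ≤ B

/-- `(log B) ^ (m + 2) / ((C m ^ 2) ^ (m + 1) B ^ (2 m + 1))` -/
noncomputable def W (C : ℝ) (m : ℕ) (B : ℝ) : ℝ :=
  Real.log B ^ (m + 2) / ((C * m ^ 2) ^ (m + 1) * B ^ (2 * m + 1))

lemma W_nonneg {C : ℝ} {m : ℕ} {B : ℝ} (hC : 0 ≤ C) (hB : 1 ≤ B) : 0 ≤ W C m B := by
  have h1 := Real.log_nonneg hB
  unfold W
  positivity

/-- **The lower bound for Mahler measures.** -/
theorem bound : ∃ C : ℝ, 7680 ≤ C ∧ ∀ m : ℕ, 0 < m →
    ∀ (F L M : Type) [Field F] [NumberField F] [Field L] [NumberField L] [Field M]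
    [NumberField M] [Algebra F L] [Algebra M L] (β : M), IsIntegral ℤ β → β ≠ 0 →
    (∀ m : ℕ, 0 < m → β ^ m ≠ 1) → ℚ⟮β⟯ = ⊤ → ∀ N : ℕ, finrank M L ≤ N →
    ∀ B : ℝ, C + m ^ 2 + Real.log (finrank F L) ≤ B → Ctrl C m B F →
    finrank ℚ F / N * W C m B ≤
      Real.log ((minpoly ℤ β).map (Int.castRingHom ℂ)).mahlerMeasure := by
  obtain ⟨C, hC, h⟩ := Pool.Agent.U218.LD.final.{0}
  refine ⟨C, hC, ?_⟩
  intro m hm F L M _ _ _ _ _ _ _ _ β hβ h0 hr hgen N hN B hB hctrl
  haveI : FiniteDimensional M L := Module.Finite.of_restrictScalars_finite ℚ M L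
  obtain ⟨d1, d2, d3, d4⟩ := degrees F L M β hβ hgen N hN
  set g := minpoly F (algebraMap M L β) with hg
  set f := minpoly ℤ β with hf
  have hirr : Irreducible f := minpoly.irreducible hβ
  have hmon : f.Monic := minpoly.monic hβ
  have hM1 := one_lt_mahler β hβ h0 hr
  rw [← hf] at hM1
  have hd1 : (1 : ℝ) ≤ g.natDegree := by exact_mod_cast d2
  have hlog : Real.log g.natDegree ≤ Real.log (finrank F L) :=
    Real.log_le_log (by linarith) (by exact_mod_cast d3)
  have hlog0 : 0 ≤ Real.log (g.natDegree : ℝ) := Real.log_nonneg hd1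
  have hB' : C + m ^ 2 + Real.log g.natDegree ≤ B := by linarith
  have hB1 : 1 ≤ B := by
    have : (0 : ℝ) ≤ (m : ℝ) ^ 2 := by positivity
    linarith
  have hN0 : 0 < N := lt_of_lt_of_le finrank_pos hN
  have hNR : (0 : ℝ) < N := by exact_mod_cast hN0
  have key : Real.exp (f.natDegree / g.natDegree * W C m B) ≤
      (f.map (Int.castRingHom ℂ)).mahlerMeasure := by
    rcases hctrl with ⟨E, _, _, _, hE, ⟨φ⟩⟩ | hT
    · have h1 := ((h m hm f hirr hM1).2 E hE (g.map φ) (by
        have h2 := Polynomial.map_dvd φ d1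
        rw [Polynomial.map_map] at h2
        have e : φ.comp (Int.castRingHom F) = Int.castRingHom E := RingHom.ext_int _ _
        rwa [e] at h2) (by rw [natDegree_map]; exact d2) B (by rw [natDegree_map]; exact hB')).1 hmon
      rw [natDegree_map] at h1
      exact h1
    · exact ((h m hm f hirr hM1).1 F g d1 d2 B hB' hT).1 hmon
  rw [Real.le_log_iff_exp_le (by linarith)]
  refine le_trans (Real.exp_le_exp.2 ?_) key
  refine mul_le_mul_of_nonneg_right ?_ (W_nonneg (by linarith) hB1)
  rw [div_le_div_iff₀ hNR (by linarith)]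
  exact_mod_cast d4

end Pool.Agent.U189.MI
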