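import Pool.Agent.U189.MI.Core

/-!
# Eigenvalues of integral matrices over fields with a subfield of finite exponent
-/

set_option autoImplicit false

open Polynomial Module NumberField IntermediateField

namespace Pool.Agent.U189.MI

open Pool.Agent.H388SL Pool.Agent.H225R3.Marg

/-- **The lower bound for eigenvalues.** -/
theorem eig : ∃ C : ℝ, 7680 ≤ C ∧ ∀ m : ℕ, 0 < m →
    ∀ (k : Type) [Field k] [NumberField k] (n s : ℕ) (S : Finset (k →+* ℂ))
    (A : Matrix (Fin n) (Fin n) (𝓞 k)), S.card ≤ s →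
    ∀ (F : Type) [Field F] [NumberField F] [Algebra F k] (B : ℝ),
    C + m ^ 2 + Real.log (n * finrank F k) ≤ B → Ctrl C m B F → IsUnit A →
    (∀ σ : k →+* ℂ, σ ∉ S → ∀ l : ℂ, ((emb σ).mapMatrix A).charpoly.IsRoot l → ‖l‖ ≤ 1) →
    (∀ N : ℕ, 0 < N → ¬ IsNilpotent (A ^ N - 1)) →
    ∃ σ ∈ S, ∃ l : ℂ, ((emb σ).mapMatrix A).charpoly.IsRoot l ∧ 1 < ‖l‖ ∧
      finrank ℚ F / (s * n : ℕ) * W C m B ≤ (s * n : ℕ) * Real.log ‖l‖ := by
  obtain ⟨C, hC, h⟩ := bound
  refine ⟨C, hC, ?_⟩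
  intro m hm k _ _ n s S A hs F _ _ _ B hB hctrl hA hout hnil
  refine Pool.Agent.Y399.MG.gap_transfer k n s S A hs _ ?_ hA hout hnil
  intro L _ _ _ M β hn hM hβ0 hβr hgen
  letI : Algebra F L := ((algebraMap k L).comp (algebraMap F k)).toAlgebra
  haveI : IsScalarTower F k L := IsScalarTower.of_algebraMap_eq fun _ => rfl
  haveI : FiniteDimensional F L := Module.Finite.of_restrictScalars_finite ℚ F L
  have hg : ℚ⟮(β : M)⟯ = ⊤ := by
    have := hgen 1 one_pos
    rwa [pow_one] at this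
  have hr : ∀ m : ℕ, 0 < m → (β : M) ^ m ≠ 1 := fun m hm h1 =>
    hβr m hm (RingOfIntegers.ext (by simpa using h1))
  have h0 : (β : M) ≠ 0 := fun h1 => hβ0 (RingOfIntegers.coe_eq_zero_iff.mp h1)
  refine h m hm F L M (β : M) β.isIntegral_coe h0 hr hg (s * n) hM B ?_ hctrl
  refine le_trans ?_ hB
  have h1 : finrank F k * finrank k L = finrank F L := Module.finrank_mul_finrank F k L
  have h2 : finrank F L ≤ n * finrank F k := by
    rw [← h1, mul_comm]
    exact Nat.mul_le_mul_right _ hn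
  have h3 : (0 : ℝ) < finrank F L := by exact_mod_cast (finrank_pos : 0 < finrank F L)
  have h4 : Real.log (finrank F L) ≤ Real.log (n * finrank F k) :=
    Real.log_le_log h3 (by exact_mod_cast h2)
  linarith

/-- the real estimate: polylogarithmic degrees -/
theorem real_log {C : ℝ} (hC : 7680 ≤ C) (m n : ℕ) (hm : 0 < m) {c : ℝ} (hc : 0 < c) :
    ∃ κ : ℝ, 0 < κ ∧ ∀ a b : ℕ, 0 < b →
      c * Real.log (3 + b) ^ (2 * m + 1) ≤ a * Real.log (Real.log (3 + b)) ^ (m + 2) →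
      κ ≤ a * W C m (C + m ^ 2 + Real.log n + Real.log b) := by
  have hn0 : 0 ≤ Real.log (n : ℝ) := Real.log_natCast_nonneg n
  set K : ℝ := C + m ^ 2 + Real.log n + 1 with hK
  have hm0 : (0 : ℝ) < m := by exact_mod_cast hm
  have hC0 : 0 < C := by linarith
  have hK0 : 0 < K := by positivity
  refine ⟨c / ((C * m ^ 2) ^ (m + 1) * K ^ (2 * m + 1)), by positivity, ?_⟩
  intro a b hb h
  have hb1 : (1 : ℝ) ≤ b := by exact_mod_cast hb
  set B : ℝ := C + m ^ 2 + Real.log n + Real.log b with hB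
  set l := Real.log (3 + b) with hl
  have hlogb : 0 ≤ Real.log (b : ℝ) := Real.log_nonneg hb1
  have hl1 : 1 ≤ l := by
    rw [hl, Real.le_log_iff_exp_le (by linarith)]
    have := Real.exp_one_lt_d9
    linarith
  have hbl : Real.log b ≤ l := Real.log_le_log (by linarith) (by linarith)
  have hlb : l ≤ Real.log b + 4 := by
    have h1 : l ≤ Real.log (4 * b) := Real.log_le_log (by linarith) (by linarith)
    rw [Real.log_mul (by norm_num) (by linarith)] at h1
    have h2 : Real.log (4 : ℝ) ≤ 4 - 1 := Real.log_le_sub_one_of_pos (by norm_num)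
    linarith
  have hm2 : (0 : ℝ) ≤ (m : ℝ) ^ 2 := by positivity
  have hBl : l ≤ B := by rw [hB]; linarith
  have hBK : B ≤ K * l := by
    have h1 : C + m ^ 2 + Real.log n ≤ (C + m ^ 2 + Real.log n) * l :=
      le_mul_of_one_le_right (by linarith) hl1
    have h2 : K * l = (C + m ^ 2 + Real.log n) * l + l := by rw [hK]; ring
    rw [h2, hB]
    linarith
  have hB1 : 1 ≤ B := by linarith
  have hll : 0 ≤ Real.log l := Real.log_nonneg hl1
  have hlB : Real.log l ≤ Real.log B := Real.log_le_log (by linarith) hBl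
  have hl0 : 0 < l := by linarith
  have hlow : Real.log l ^ (m + 2) / ((C * m ^ 2) ^ (m + 1) * (K * l) ^ (2 * m + 1)) ≤ W C m B := by
    unfold W
    have hB0 : 0 < B := by linarith
    apply div_le_div₀ (pow_nonneg (hll.trans hlB) _) (pow_le_pow_left₀ hll hlB _) (by positivity)
    exact mul_le_mul_of_nonneg_left (pow_le_pow_left₀ (by linarith) hBK _) (by positivity)
  have ha : (0 : ℝ) ≤ a := Nat.cast_nonneg a
  refine le_trans ?_ (mul_le_mul_of_nonneg_left hlow ha)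
  rw [mul_pow K l, ← mul_assoc, mul_div_assoc', div_le_div_iff₀ (by positivity) (by positivity)]
  have h3 := mul_le_mul_of_nonneg_right h
    (by positivity : 0 ≤ (C * (m : ℝ) ^ 2) ^ (m + 1) * K ^ (2 * m + 1))
  calc c * ((C * (m : ℝ) ^ 2) ^ (m + 1) * K ^ (2 * m + 1) * l ^ (2 * m + 1)) =
      c * l ^ (2 * m + 1) * ((C * (m : ℝ) ^ 2) ^ (m + 1) * K ^ (2 * m + 1)) := by ring
    _ ≤ _ := h3

/-- `W` is decreasing in `C` -/
lemma W_anti {C C' : ℝ} (hC : 0 < C) (h : C ≤ C') {m : ℕ} (hm : 0 < m) {B : ℝ} (hB : 1 ≤ B) :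
    W C' m B ≤ W C m B := by
  have hm0 : (0 : ℝ) < m := by exact_mod_cast hm
  have hC' : 0 < C' := hC.trans_le h
  have h1 := Real.log_nonneg hB
  unfold W
  apply div_le_div_of_nonneg_left (by positivity) (by positivity)
  exact mul_le_mul_of_nonneg_right (pow_le_pow_left₀ (by positivity)
    (mul_le_mul_of_nonneg_right h (by positivity)) _) (by positivity)

/-- the real estimate: powers of the degree -/
theorem real_pow {C : ℝ} (hC : 7680 ≤ C) (n : ℕ) {ε : ℝ} (hε : 0 < ε) :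
    ∃ c : ℝ, 0 < c ∧ ∃ κ : ℝ, 0 < κ ∧ ∀ m a b : ℕ, 0 < m → 0 < a → 0 < b →
      ((a * b : ℕ) : ℝ) ^ ε ≤ a →
      m * Real.log (Real.log (3 * (a * b : ℕ))) ≤ c * Real.log (3 * (a * b : ℕ)) →
      κ ≤ a * W C m (C + m ^ 2 + Real.log n + Real.log b) := by
  have hn0 : 0 ≤ Real.log (n : ℝ) := Real.log_natCast_nonneg n
  obtain ⟨c, hc, κ, hκ, h⟩ := Pool.Agent.U218.LD.real_cor (C0 := C + Real.log n) (by linarith) hε
  refine ⟨c, hc, κ, hκ, ?_⟩
  intro m a b hm ha hb hab hmc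
  have ha1 : (1 : ℝ) ≤ a := by exact_mod_cast ha
  have hb1 : (1 : ℝ) ≤ b := by exact_mod_cast hb
  have hd1 : (1 : ℝ) ≤ ((a * b : ℕ) : ℝ) := by exact_mod_cast Nat.mul_pos ha hb
  have hd0 : (0 : ℝ) < ((a * b : ℕ) : ℝ) := by linarith
  have hD : (b : ℝ) ≤ ((a * b : ℕ) : ℝ) ^ (1 - ε) := by
    rw [Real.rpow_sub hd0, Real.rpow_one, le_div_iff₀ (Real.rpow_pos_of_pos hd0 ε)]
    calc (b : ℝ) * ((a * b : ℕ) : ℝ) ^ ε ≤ b * a := mul_le_mul_of_nonneg_left hab (by linarith)
      _ = ((a * b : ℕ) : ℝ) := by push_cast; ring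
  have h1 := h m ((a * b : ℕ) : ℝ) b hm hb1 hd1 hD hmc _ rfl
  have h2 : ((a * b : ℕ) : ℝ) / b = a := by
    push_cast
    field_simp
  rw [h2] at h1
  have e : C + Real.log n + (m : ℝ) ^ 2 + Real.log b = C + m ^ 2 + Real.log n + Real.log b := by ring
  rw [e] at h1
  refine h1.trans (mul_le_mul_of_nonneg_left ?_ (by linarith))
  refine W_anti (by linarith) (by linarith) hm ?_
  have h3 : (0 : ℝ) ≤ (m : ℝ) ^ 2 := by positivity
  have h4 := Real.log_nonneg hb1
  linarith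

end Pool.Agent.U189.MI
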